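import Mathlib
import Pool.Agent.R456.CL.Stm

/-!
# Project CL, module W1: a maximal family of copies of `g'` in `g` is infinite
-/

set_option autoImplicit false

namespace Pool.Agent.R193.CL.W1

open Pool.Agent.R456.CL

universe u

variable {A : Type u} [CStarAlgebra A]

theorem pj_mul {p : A} (hp : PJ p) : p * p = p := hp.isIdempotentElem.eq

theorem pj_star {p : A} (hp : PJ p) : star p = p := hp.isSelfAdjoint.star_eq

theorem pj_mk {p : A} (h1 : p * p = p) (h2 : star p = p) : PJ p := ⟨h1, h2⟩

theorem v_mul {v p : A} (hp : PJ p) (hv : star v * v = p) : v * p = v := by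
  have h : star (v - v * p) * (v - v * p) = 0 := by
    rw [star_sub, star_mul, pj_star hp]
    have e1 : (star v - p * star v) * (v - v * p)
        = star v * v - (star v * v) * p - p * (star v * v) + p * (star v * v) * p := by
      noncomm_ring
    rw [e1, hv, pj_mul hp, pj_mul hp]
    simp
  have := CStarRing.star_mul_self_eq_zero_iff (v - v * p) |>.mp h
  exact (sub_eq_zero.mp this).symm

theorem vstar_mul {v p : A} (hp : PJ p) (hv : star v * v = p) : p * star v = star v := by
  have := congrArg star (v_mul hp hv)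
  rwa [star_mul, pj_star hp] at this

theorem range_pj {v p : A} (hp : PJ p) (hv : star v * v = p) : PJ (v * star v) := by
  refine pj_mk ?_ ?_
  · calc v * star v * (v * star v) = v * (star v * v) * star v := by noncomm_ring
      _ = v * star v := by rw [hv, v_mul hp hv]
  · rw [star_mul, star_star]

theorem range_mul {v p : A} (hp : PJ p) (hv : star v * v = p) : (v * star v) * v = v := by
  rw [mul_assoc, hv, v_mul hp hv]

theorem le_symm {p q : A} (hp : PJ p) (hq : PJ q) (h : p * q = p) : q * p = p := by
  have := congrArg star h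
  rwa [star_mul, pj_star hp, pj_star hq] at this

theorem orth_symm {p q : A} (hp : PJ p) (hq : PJ q) (h : p * q = 0) : q * p = 0 := by
  have := congrArg star h
  rwa [star_mul, pj_star hp, pj_star hq, star_zero] at this

theorem range_le {v p f : A} (hp : PJ p) (hf : PJ f) (hv : star v * v = p)
    (h : (v * star v) * f = v * star v) : f * v = v := by
  have h1 := le_symm (range_pj hp hv) hf h
  calc f * v = f * (v * star v * v) := by rw [range_mul hp hv]
    _ = (f * (v * star v)) * v := by noncomm_ring
    _ = v := by rw [h1, range_mul hp hv]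

theorem range_le' {v p f : A} (hp : PJ p) (hf : PJ f) (hv : star v * v = p)
    (h : (v * star v) * f = v * star v) : star v * f = star v := by
  have := congrArg star (range_le hp hf hv h)
  rwa [star_mul, pj_star hf] at this

theorem sub_trans {p q r : A} (hp : PJ p) (hq : PJ q) (hr : PJ r) (h1 : Sub p q) (h2 : Sub q r) :
    Sub p r := by
  obtain ⟨v, hv, hv'⟩ := h1
  obtain ⟨w, hw, hw'⟩ := h2
  refine ⟨w * v, ?_, ?_⟩
  · calc star (w * v) * (w * v) = star v * ((star w * w) * v) := by
          rw [star_mul]; noncomm_ring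
      _ = p := by rw [hw, range_le hp hq hv hv', hv]
  · calc w * v * star (w * v) * r = w * v * star v * (star w * r) := by
          rw [star_mul]; noncomm_ring
      _ = w * v * star (w * v) := by
          rw [range_le' hq hr hw hw', star_mul]; noncomm_ring

theorem eqv_sub {p q : A} (hq : PJ q) (h : Eqv p q) : Sub p q := by
  obtain ⟨v, hv, hv'⟩ := h
  exact ⟨v, hv, by rw [hv', pj_mul hq]⟩

theorem eqv_symm {p q : A} (h : Eqv p q) : Eqv q p := by
  obtain ⟨v, hv, hv'⟩ := h
  exact ⟨star v, by rw [star_star, hv'], by rw [star_star, hv]⟩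

theorem le_sub {p q : A} (hp : PJ p) (h : Le p q) : Sub p q := by
  refine ⟨p, ?_, ?_⟩
  · rw [pj_star hp, pj_mul hp]
  · rw [pj_star hp, pj_mul hp]
    exact h

theorem pj_add {p q : A} (hp : PJ p) (hq : PJ q) (h : p * q = 0) : PJ (p + q) := by
  refine pj_mk ?_ ?_
  · calc (p + q) * (p + q) = p * p + p * q + q * p + q * q := by noncomm_ring
      _ = p + q := by rw [pj_mul hp, pj_mul hq, h, orth_symm hp hq h]; simp
  · rw [star_add, pj_star hp, pj_star hq]

theorem sub_add {e1 e2 f1 f2 : A} (he1 : PJ e1) (he2 : PJ e2) (hf1 : PJ f1) (hf2 : PJ f2)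
    (he : e1 * e2 = 0) (hf : f1 * f2 = 0) (h1 : Sub e1 f1) (h2 : Sub e2 f2) :
    Sub (e1 + e2) (f1 + f2) := by
  obtain ⟨v, hv, hv'⟩ := h1
  obtain ⟨w, hw, hw'⟩ := h2
  have hfv := range_le he1 hf1 hv hv'
  have hfw := range_le he2 hf2 hw hw'
  have hvf := range_le' he1 hf1 hv hv'
  have hwf := range_le' he2 hf2 hw hw'
  have hve := v_mul he1 hv
  have hwe := v_mul he2 hw
  have hev := vstar_mul he1 hv
  have hew := vstar_mul he2 hw
  have c1 : star v * w = 0 := by
    rw [← hvf, ← hfw]
    calc star v * f1 * (f2 * w) = star v * (f1 * f2) * w := by noncomm_ring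
      _ = 0 := by rw [hf]; simp
  have c2 : star w * v = 0 := by
    rw [← hwf, ← hfv]
    calc star w * f2 * (f1 * v) = star w * (f2 * f1) * v := by noncomm_ring
      _ = 0 := by rw [orth_symm hf1 hf2 hf]; simp
  have c3 : v * star w = 0 := by
    rw [← hve, ← hew]
    calc v * e1 * (e2 * star w) = v * (e1 * e2) * star w := by noncomm_ring
      _ = 0 := by rw [he]; simp
  have c4 : w * star v = 0 := by
    rw [← hwe, ← hev]
    calc w * e2 * (e1 * star v) = w * (e2 * e1) * star v := by noncomm_ring
      _ = 0 := by rw [orth_symm he1 he2 he]; simp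
  have d1 : v * star v * f2 = 0 := by
    rw [← hv']
    calc v * star v * f1 * f2 = v * star v * (f1 * f2) := by noncomm_ring
      _ = 0 := by rw [hf]; simp
  have d2 : w * star w * f1 = 0 := by
    rw [← hw']
    calc w * star w * f2 * f1 = w * star w * (f2 * f1) := by noncomm_ring
      _ = 0 := by rw [orth_symm hf1 hf2 hf]; simp
  refine ⟨v + w, ?_, ?_⟩
  · calc star (v + w) * (v + w) = star v * v + star v * w + star w * v + star w * w := by
          rw [star_add]; noncomm_ring
      _ = e1 + e2 := by rw [hv, hw, c1, c2]; simp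
  · have e : (v + w) * star (v + w) = v * star v + w * star w := by
      calc (v + w) * star (v + w) = v * star v + v * star w + w * star v + w * star w := by
            rw [star_add]; noncomm_ring
        _ = v * star v + w * star w := by rw [c3, c4]; simp
    rw [e]
    calc (v * star v + w * star w) * (f1 + f2)
        = v * star v * f1 + v * star v * f2 + w * star w * f1 + w * star w * f2 := by
          noncomm_ring
      _ = v * star v + w * star w := by rw [hv', hw', d1, d2]; simp

theorem sup_le {ι : Type*} {e : ι → A} {E f : A} (hE : IsSup e E)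
    (h : ∀ i, e i * f = e i) (he : ∀ i, PJ (e i)) (hf : PJ f) : E * f = E := by
  have h1 := hE.2.2 (1 - f) (fun i => by
    rw [sub_mul, one_mul, le_symm (he i) hf (h i), sub_self])
  rw [sub_mul, one_mul, sub_eq_zero] at h1
  exact le_symm' hE.1 hf h1
where
  le_symm' {E f : A} (hE : PJ E) (hf : PJ f) (h : E = f * E) : E * f = E := by
    have := congrArg star h
    rw [star_mul, pj_star hE, pj_star hf] at this
    exact this.symm

/-- A set of pairwise orthogonal copies of `g'` inside `g`. -/
def Good (g g' : A) (F : Set A) : Prop :=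
  (∀ p ∈ F, PJ p) ∧ (∀ p ∈ F, ∀ q ∈ F, p ≠ q → p * q = 0) ∧ (∀ p ∈ F, p * g = p) ∧
    ∀ p ∈ F, Eqv g' p

theorem exists_max (g g' : A) : ∃ F : Set A, Maximal (Good g g') F := by
  apply zorn_subset
  intro c hc hchain
  refine ⟨⋃₀ c, ⟨?_, ?_, ?_, ?_⟩, fun s hs => Set.subset_sUnion_of_mem hs⟩
  · rintro p ⟨s, hs, hp⟩
    exact (hc hs).1 p hp
  · rintro p ⟨s, hs, hp⟩ q ⟨t, ht, hq⟩ hpq
    rcases hchain.total hs ht with h | h
    · exact (hc ht).2.1 p (h hp) q hq hpq
    · exact (hc hs).2.1 p hp q (h hq) hpq
  · rintro p ⟨s, hs, hp⟩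
    exact (hc hs).2.2.1 p hp
  · rintro p ⟨s, hs, hp⟩
    exact (hc hs).2.2.2 p hp

theorem w1 (hSup : PSup A) (hInf : PInf A) (hCmp : PCmp A) : PW1 A := by
  intro g g' hg hg' hinf hle hnot
  obtain ⟨F, hF⟩ := exists_max g g'
  obtain ⟨hFP, hFO, hFg, hFE⟩ := hF.prop
  obtain ⟨E, hE⟩ := hSup F (fun x => (x : A)) (fun x => hFP x x.2)
  have hq : ∀ i : F, PJ (i : A) := fun x => hFP x x.2
  have hEg : E * g = E := sup_le hE (fun i => hFg i i.2) hq hg
  have hgE : g * E = E := le_symm hE.1 hg hEg
  have hr : PJ (g - E) := by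
    refine pj_mk ?_ ?_
    · calc (g - E) * (g - E) = g * g - g * E - E * g + E * E := by noncomm_ring
        _ = g - E := by rw [pj_mul hg, hgE, hEg, pj_mul hE.1]; simp
    · rw [star_sub, pj_star hg, pj_star hE.1]
  have hg'0 : g' ≠ 0 := by
    rintro rfl
    obtain ⟨v, hv, hv1, hv2⟩ := hinf
    apply hv2
    have : v = 0 := CStarRing.star_mul_self_eq_zero_iff v |>.mp hv
    rw [this]
    simp
  have hsub : Sub (g - E) g' := by
    rcases hCmp g' (g - E) hg' hr with h | h
    · exfalso
      obtain ⟨v, hv, hv'⟩ := h
      set p := v * star v with hp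
      have hpP : PJ p := range_pj hg' hv
      have hporth : ∀ q ∈ F, p * q = 0 := by
        intro q hqF
        have h1 : E * q = q := le_symm (hFP q hqF) hE.1 (hE.2.1 ⟨q, hqF⟩)
        have h2 : g * q = q := le_symm (hFP q hqF) hg (hFg q hqF)
        calc p * q = p * (g - E) * q := by rw [hv']
          _ = p * (g * q - E * q) := by noncomm_ring
          _ = 0 := by rw [h1, h2]; simp
      have hpg : p * g = p := by
        calc p * g = p * (g - E) * g := by rw [hv']
          _ = p * (g * g - E * g) := by noncomm_ring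
          _ = p := by rw [pj_mul hg, hEg, hv']
      have hpE : Eqv g' p := ⟨v, hv, rfl⟩
      have hgood : Good g g' (insert p F) := by
        refine ⟨?_, ?_, ?_, ?_⟩
        · rintro a (rfl | ha)
          · exact hpP
          · exact hFP a ha
        · rintro a (rfl | ha) b (rfl | hb) hab
          · exact absurd rfl hab
          · exact hporth b hb
          · exact orth_symm hpP (hFP a ha) (hporth a ha)
          · exact hFO a ha b hb hab
        · rintro a (rfl | ha)
          · exact hpg
          · exact hFg a ha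
        · rintro a (rfl | ha)
          · exact hpE
          · exact hFE a ha
      have hmem : p ∈ F := hF.le_of_ge hgood (Set.subset_insert _ _) (Set.mem_insert _ _)
      have hp0 : p = 0 := by
        rw [← pj_mul hpP]
        exact hporth p hmem
      apply hg'0
      rw [← hv]
      have : v = v * star v * v := (range_mul hg' hv).symm
      rw [this, ← hp, hp0]
      simp
    · exact h
  refine ⟨F, fun x => (x : A), E, ?_, hq, ?_, fun i => hFg i i.2, fun i => hFE i i.2, hE, hsub⟩
  · by_contra hfin
    rw [not_infinite_iff_finite] at hfin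
    have : Fintype F := Fintype.ofFinite F
    classical
    -- partial sums
    obtain ⟨g1, g2, hg1, hg2, ho, hl1, hl2, he1, he2⟩ := hInf g' hg' hinf
    have key : ∀ s : Finset F, PJ ((g - E) + ∑ i ∈ s, (i : A)) ∧
        (∀ j : F, j ∉ s → ((g - E) + ∑ i ∈ s, (i : A)) * j = 0) ∧
        Sub ((g - E) + ∑ i ∈ s, (i : A)) g' := by
      intro s
      induction s using Finset.induction_on with
      | empty =>
        refine ⟨by simpa using hr, ?_, by simpa using hsub⟩
        intro j _
        have h1 : E * j = j := le_symm (hq j) hE.1 (hE.2.1 j)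
        have h2 : g * j = j := le_symm (hq j) hg (hFg j j.2)
        simp [sub_mul, h1, h2]
      | insert a s ha ih =>
        obtain ⟨i1, i2, i3⟩ := ih
        have heq : (g - E) + ∑ i ∈ insert a s, (i : A) = ((g - E) + ∑ i ∈ s, (i : A)) + a := by
          rw [Finset.sum_insert ha]
          abel
        rw [heq]
        refine ⟨pj_add i1 (hq a) (i2 a ha), ?_, ?_⟩
        · intro j hj
          rw [Finset.mem_insert, not_or] at hj
          rw [add_mul, i2 j hj.2, hFO a a.2 j j.2 (fun h => hj.1 (Subtype.ext h).symm)]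
          simp
        · have h1 : Sub ((g - E) + ∑ i ∈ s, (i : A)) g1 :=
            sub_trans i1 hg' hg1 i3 (eqv_sub hg1 he1)
          have h2 : Sub (a : A) g2 :=
            sub_trans (hq a) hg' hg2 (eqv_sub hg' (eqv_symm (hFE a a.2))) (eqv_sub hg2 he2)
          have h3 := sub_add i1 (hq a) hg1 hg2 (i2 a ha) ho h1 h2
          have h4 : Le (g1 + g2) g' := by
            show (g1 + g2) * g' = g1 + g2
            rw [add_mul, hl1, hl2]
          exact sub_trans (pj_add i1 (hq a) (i2 a ha)) (pj_add hg1 hg2 ho) hg' h3
            (le_sub (pj_add hg1 hg2 ho) h4)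
    obtain ⟨k1, k2, k3⟩ := key Finset.univ
    have hsum : ∑ i : F, (i : A) = E := by
      set S := ∑ i : F, (i : A) with hS
      have hSE : S * E = S := by
        rw [hS, Finset.sum_mul]
        exact Finset.sum_congr rfl (fun i _ => hE.2.1 i)
      have hSi : ∀ i : F, S * i = i := by
        intro i
        rw [hS, Finset.sum_mul, Finset.sum_eq_single i]
        · exact pj_mul (hq i)
        · intro j _ hji
          exact hFO j j.2 i i.2 (fun h => hji (Subtype.ext h))
        · intro h
          exact absurd (Finset.mem_univ i) h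
      have h1 := hE.2.2 (1 - S) (fun i => by rw [sub_mul, one_mul, hSi i, sub_self])
      rw [sub_mul, one_mul, hSE, sub_eq_zero] at h1
      exact h1.symm
    rw [hsum] at k3
    apply hnot
    have : g - E + E = g := by abel
    rwa [this] at k3
  · intro i j hij
    exact hFO i i.2 j j.2 (fun h => hij (Subtype.ext h))

theorem w1_ok : St_W1.{u} := by
  intro A _ hSup hInf _ hCmp
  exact w1 hSup hInf hCmp

end Pool.Agent.R193.CL.W1
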